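import Pool.Agent.QGN.Final

/-!
# Arbitrarily many solutions in an annulus, variable radial data

In an annulus `a < |x - x₀| < b` of `ℝ^N` and for continuous radial data `c > 0`, `μ > 0` and `h` (of
any sign) the problem `-Δu = λ c(x) u + μ(x) |∇u|² + h(x)`, `u ∈ H¹₀ ∩ L^∞`, has for every `n` at
least `n` solutions when `λ` is large.

Proof. With `k = √λ` the radial equation is `u' = k y`, `y' = -k (c u + μ y²) - (N-1)/r y - h/k`.
The orbits start at `(0, κ)` at `r = a`, `κ > 0`; the square is truncated for large `|y|` and the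
forcing is cut off near the origin, so that the flow is global and the angle of `(u, y)` is defined
and continuous in `κ`. For a small `κ = δ` the orbit makes many turns when `k` is large, for a large
`κ = κ₁` it makes less than two half-turns, as it enters a region of no return. At the values `κ`
for which the angle at `b` is `π/2 - jπ` we have `u(b) = 0`; the orbit never enters the region of no
return, hence it is bounded a priori and the square was not truncated; and it has made only `j`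
half-turns, each of which diminishes the distance to the origin at most by a fixed factor, hence the
forcing was not cut off.
-/

open InnerProductSpace Laplacian Set

theorem Pool.Agent.Results.MP_2aff51_an.AnnulusRadial.result {N : ℕ} (hN : 1 ≤ N)
    (x₀ : EuclideanSpace ℝ (Fin N)) {a b : ℝ} (ha : 0 < a) (hab : a < b) {c μ h : ℝ → ℝ}
    (hc : ContinuousOn c (Icc a b)) (hμ : ContinuousOn μ (Icc a b))
    (hh : ContinuousOn h (Icc a b)) (hc0 : ∀ r ∈ Icc a b, 0 < c r)
    (hμ0 : ∀ r ∈ Icc a b, 0 < μ r) (n : ℕ) :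
    ∃ Λ : ℝ, 0 < Λ ∧ ∀ lam : ℝ, Λ ≤ lam →
      ∃ u : Fin n → EuclideanSpace ℝ (Fin N) → ℝ,
        (∀ i j, i ≠ j → ∃ x, a < ‖x - x₀‖ ∧ ‖x - x₀‖ < b ∧ u i x ≠ u j x) ∧
        ∀ i, QGB.IsSolution {x | a < ‖x - x₀‖ ∧ ‖x - x₀‖ < b} lam (fun x => c ‖x - x₀‖)
            (fun x => μ ‖x - x₀‖) (fun x => h ‖x - x₀‖) (u i) ∧
          (∃ f : ℝ → ℝ, ∀ x, u i x = f ‖x - x₀‖) ∧
          ContDiffOn ℝ 2 (u i) {x | x ≠ x₀} ∧
          (∀ x, a < ‖x - x₀‖ → ‖x - x₀‖ < b → -(Δ (u i) x) = lam * c ‖x - x₀‖ * u i x +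
            μ ‖x - x₀‖ * ‖gradient (u i) x‖ ^ 2 + h ‖x - x₀‖) ∧
          ∀ x, ‖x - x₀‖ = a ∨ ‖x - x₀‖ = b → u i x = 0 := by
  obtain ⟨Λ, hΛ, hmain⟩ := QGN.main hN x₀ ha hab hc hμ hh hc0 hμ0 n
  refine ⟨Λ, hΛ, fun lam hlam => ?_⟩
  obtain ⟨u, hu, hsol⟩ := hmain lam hlam
  refine ⟨u, fun i j hij => ?_, fun i => ?_⟩
  · obtain ⟨x, hx, hne⟩ := hu i j hij
    exact ⟨x, hx.1, hx.2, hne⟩
  · obtain ⟨h1, h2, h3, h4, h5⟩ := hsol i
    exact ⟨h1, h2, h3, fun x hx hx' => h4 x ⟨hx, hx'⟩, h5⟩
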