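import Pool.Agent.QGB.Sol
import Pool.Agent.QGB.Final

/-!
# At least `R √(λ c) / (512 N)` solutions in a ball

In a ball `B_R(x₀)` of `ℝ^N` and for constants `c > 0`, `μ > 0` and `h` (of any sign) the problem
`-Δu = λ c u + μ |∇u|² + h`, `u ∈ H¹₀ ∩ L^∞`, has for all large `λ` at least three, indeed at least
`R √(λ c) / (512 N)`, distinct solutions.

Proof. After scaling the radial solutions are `v(s)` with `v'' + (N-1)/s v' + v'² + v = 0`,
`v(0) = b`, `v(S) = -e`, where `S = R √(λ c)` and `e = -μ h / (λ c)`. The function `w = exp v` solves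
`w'' + (N-1)/s w' + w log w = 0`; for `1 < w(0) < exp (N/2)` it satisfies `v' ≥ -s/2` before its
first turn and is trapped by the energy afterwards, so that it is positive on the half line, while
for `w(0) = exp (N/2)` it is the Gaussian `exp (N/2 - s²/4)`. The angle of `(v, v')` at `S` is thus
continuous in `b ∈ [1/5, N/2]`, larger than `-π` at `b = N/2` and at most `-(S - 2(N-1))/4` at
`b = 1/5`; at the values `b_j` with angle `-jπ`, `j ≤ κ S`, the energy is not small, hence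
`|v(S; b_j)| ≥ 1/6`, with sign `(-1)^j`, and `v(S; b) = -e` has a root between `b_{j+1}` and `b_j`.
-/

open Metric InnerProductSpace Laplacian

theorem Pool.Agent.Results.MP_2aff51_an.BallManySolutions.result {N : ℕ} (hN : 1 ≤ N)
    (x₀ : EuclideanSpace ℝ (Fin N)) {R c μ : ℝ} (hR : 0 < R) (hc : 0 < c) (hμ : 0 < μ) (h : ℝ) :
    ∃ Λ : ℝ, 0 < Λ ∧ ∀ lam : ℝ, Λ ≤ lam → ∃ n : ℕ, 3 ≤ n ∧ R * √(lam * c) / (512 * N) ≤ n ∧
      ∃ u : Fin n → EuclideanSpace ℝ (Fin N) → ℝ,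
        (∀ i j, i ≠ j → u i x₀ ≠ u j x₀) ∧
        ∀ i, QGB.IsSolution (ball x₀ R) lam (fun _ => c) (fun _ => μ) (fun _ => h) (u i) ∧
          (∃ f : ℝ → ℝ, ∀ x, u i x = f ‖x - x₀‖) ∧
          (∃ ρ, R < ρ ∧ ContDiffOn ℝ 2 (u i) (ball x₀ ρ)) ∧
          (∀ x ∈ ball x₀ R, -(Δ (u i) x) = lam * (c * u i x) + μ * ‖gradient (u i) x‖ ^ 2 + h) ∧
          ∀ x ∈ sphere x₀ R, u i x = 0 := by
  obtain ⟨d, rfl⟩ : ∃ d, N = d + 1 := ⟨N - 1, by omega⟩
  obtain ⟨Λ, hΛ, hmain⟩ := QGB.exists_many d x₀ hR hc hμ h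
  refine ⟨Λ, hΛ, fun lam hlam => ?_⟩
  obtain ⟨n, hn, hn2, u, hu, hsol⟩ := hmain lam hlam
  refine ⟨n, hn, by push_cast; exact hn2, u, hu, fun i => ?_⟩
  obtain ⟨h1, ⟨ρ, hρ, h2⟩, h3, h4⟩ := hsol i
  exact ⟨QGB.isSolution_of_classical hR hρ h2 h4 h3, h1, ⟨ρ, hρ, h2⟩, h3, h4⟩
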