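import Pool.Agent.QGN.SFinal

/-!
# Arbitrarily many solutions in a ball, variable radial data

In a ball `|x - x₀| < R` of `ℝ^N` and for continuous radial data `c > 0`, `μ > 0` and `h` (of any
sign) the problem `-Δu = λ c(x) u + μ(x) |∇u|² + h(x)`, `u ∈ H¹₀ ∩ L^∞`, has for every `n` at least
`n` solutions when `λ` is large.

Proof. With `k = √λ` the radial equation is `u' = k y`, `y' = -k (c u + μ y²) - (N-1)/r y - h/k`.
The orbits start at `(β, 0)` at `r = 0`, `β > 0`; the square is truncated for large `|y|` and the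
forcing is cut off for `|u| + |y| < A/k²`, so that the flow is global and the angle of `(u, y)` is
defined and continuous in `β`. An orbit that comes close to the origin makes many turns at once;
for a large `β` the orbit makes less than two half-turns, as it enters a region of no return. At
the values `β` for which the angle at `R` is `π/2 - jπ` we have `u(R) = 0`; the orbit never enters
the region of no return, hence it is bounded a priori and the square was not truncated; and it never
comes close to the origin, as it would make too many turns, hence the forcing was not cut off.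
-/

open Metric InnerProductSpace Laplacian Set

theorem Pool.Agent.Results.MP_2aff51_an.BallRadial.result {N : ℕ} (hN : 1 ≤ N)
    (x₀ : EuclideanSpace ℝ (Fin N)) {R : ℝ} (hR : 0 < R) {c μ h : ℝ → ℝ}
    (hc : ContinuousOn c (Icc 0 R)) (hμ : ContinuousOn μ (Icc 0 R))
    (hh : ContinuousOn h (Icc 0 R)) (hc0 : ∀ r ∈ Icc 0 R, 0 < c r)
    (hμ0 : ∀ r ∈ Icc 0 R, 0 < μ r) (n : ℕ) :
    ∃ Λ : ℝ, 0 < Λ ∧ ∀ lam : ℝ, Λ ≤ lam →
      ∃ u : Fin n → EuclideanSpace ℝ (Fin N) → ℝ,
        (∀ i j, i ≠ j → u i x₀ ≠ u j x₀) ∧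
        ∀ i, QGB.IsSolution (ball x₀ R) lam (fun x => c ‖x - x₀‖) (fun x => μ ‖x - x₀‖)
            (fun x => h ‖x - x₀‖) (u i) ∧
          (∃ f : ℝ → ℝ, ∀ x, u i x = f ‖x - x₀‖) ∧
          ContDiff ℝ 2 (u i) ∧
          (∀ x ∈ ball x₀ R, -(Δ (u i) x) = lam * c ‖x - x₀‖ * u i x +
            μ ‖x - x₀‖ * ‖gradient (u i) x‖ ^ 2 + h ‖x - x₀‖) ∧
          ∀ x ∈ sphere x₀ R, u i x = 0 := by
  obtain ⟨ν, rfl⟩ : ∃ ν, N = ν + 1 := ⟨N - 1, by omega⟩
  exact QGN.smain x₀ hR hc hμ hh hc0 hμ0 n
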